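import Pool.Agent.EWG.StmtsB

/-!
# Squad EWG, row BVD: one dyadic block of primes
-/

set_option autoImplicit false

namespace Pool.Agent.EWG.H36

open Finset Pool.Agent.PrimeFourier Pool.Agent.EWG
open scoped BigOperators

theorem bvd (vau : VauStmt) (ty1 : Ty1Stmt) (ty2 : Ty2Stmt) : BvdStmt := by
  obtain ⟨B, hB, h2⟩ := ty2
  refine ⟨2 * B + 4, by positivity, fun R W x P hR hRx hW hWx hP => ?_⟩
  have hx1 : 1 ≤ x := hW.trans hWx
  have hlog : 0 ≤ Real.log x := Real.log_nonneg (by exact_mod_cast hx1)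
  obtain ⟨y, hy⟩ : ∃ y : ℝ, y = 1 + Real.log x := ⟨_, rfl⟩
  have hy1 : 1 ≤ y := by rw [hy]; linarith
  have hy8 : y ≤ y ^ 8 := le_self_pow₀ hy1 (by norm_num)
  have h3 := h2 R W W x P hR hRx hW hW hWx hP
  have h4 : ∀ l ∈ P, |∑ n ∈ Ioc 0 x, ArithmeticFunction.vonMangoldt n * D l n| ≤
      4 * W * W * Real.log x + |S4 W W x (D l)| := by
    intro l hl
    rw [vau (D l) W W x hWx]
    have h5 := ty1 l W W x (hP l hl).1 hW hW hWx
    exact (abs_add_le _ _).trans (add_le_add_left h5 _)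
  have hcard : (P.card : ℝ) ≤ R := by
    have h5 : P ⊆ Ioc R (2 * R) := fun l hl => Finset.mem_Ioc.2 (hP l hl).2
    have h6 := Finset.card_le_card h5
    rw [Nat.card_Ioc] at h6
    have h7 : P.card ≤ R := by omega
    exact_mod_cast h7
  have hW0 : (0 : ℝ) ≤ 4 * W * W * Real.log x := by positivity
  have h5 := Finset.sum_le_sum h4
  rw [Finset.sum_add_distrib, Finset.sum_const, nsmul_eq_mul] at h5
  refine h5.trans ?_
  have h6 : (P.card : ℝ) * (4 * W * W * Real.log x) ≤ 4 * y ^ 8 * (R * (W : ℝ) ^ 2) := by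
    calc (P.card : ℝ) * (4 * W * W * Real.log x) ≤ R * (4 * W * W * Real.log x) :=
          mul_le_mul_of_nonneg_right hcard hW0
      _ = 4 * (R * (W : ℝ) ^ 2) * Real.log x := by ring
      _ ≤ 4 * (R * (W : ℝ) ^ 2) * y ^ 8 :=
          mul_le_mul_of_nonneg_left (by linarith) (by positivity)
      _ = 4 * y ^ 8 * (R * (W : ℝ) ^ 2) := by ring
  rw [← hy] at h3 ⊢
  have hy0 : 0 ≤ y ^ 8 := by positivity
  have a1 : 0 ≤ (x : ℝ) / R := by positivity
  have a2 : 0 ≤ (x : ℝ) / √(W : ℝ) := by positivity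
  have a3 : 0 ≤ √(x : ℝ) * R := by positivity
  have a4 : 0 ≤ (R : ℝ) * (W : ℝ) ^ 2 := by positivity
  have b0 : 0 ≤ B * y ^ 8 := by positivity
  have b1 := mul_nonneg b0 a1
  have b3 := mul_nonneg b0 a3
  have b4 := mul_nonneg b0 a4
  have c1 := mul_nonneg hy0 a1
  have c2 := mul_nonneg hy0 a2
  have c3 := mul_nonneg hy0 a3
  nlinarith

end Pool.Agent.EWG.H36
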